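import Pool.Agent.W645.WV.Stm
import Pool.Agent.Helper76.HPlanch

/-!
# WV-KB: the kernel from `L^2(ds)` to `L^2(dt)`
-/

set_option autoImplicit false

open MeasureTheory Set Complex FourierTransform
open scoped ENNReal

namespace Pool.Agent.W554.WV

open Pool.Agent.W645.WV

theorem int_bdd (f : ℝ → ℂ) (hf : Measurable f) (a b K : ℝ) (hK : ∀ y, ‖f y‖ ≤ K)
    (hs : ∀ y, f y ≠ 0 → y ∈ Icc a b) : Integrable f ∧ MemLp f 2 := by
  have e : f = (Icc a b).indicator f := by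
    funext y
    by_cases h : y ∈ Icc a b
    · rw [indicator_of_mem h]
    · rw [indicator_of_notMem h]
      by_contra h2
      exact h (hs y h2)
  have hm : ∀ p : ℝ≥0∞, MemLp f p (volume.restrict (Icc a b)) := fun p =>
    MemLp.of_bound hf.aestronglyMeasurable K (Filter.Eventually.of_forall hK)
  constructor
  · rw [e, integrable_indicator_iff measurableSet_Icc]
    exact memLp_one_iff_integrable.1 (hm 1)
  · rw [e, memLp_indicator_iff_restrict measurableSet_Icc]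
    exact hm 2

/-- the phase `e^{2 π i r √y}` -/
noncomputable def E (r y : ℝ) : ℂ :=
  cexp (2 * (Real.pi : ℂ) * I * ((r * Real.sqrt y : ℝ) : ℂ))

/-- the phase `e^{2 π i s y}` -/
noncomputable def ph (s y : ℝ) : ℂ := cexp (2 * (Real.pi : ℂ) * I * ((s * y : ℝ) : ℂ))

theorem norm_ex (x : ℝ) : ‖cexp (2 * (Real.pi : ℂ) * I * (x : ℂ))‖ = 1 := by
  have : 2 * (Real.pi : ℂ) * I * (x : ℂ) = ((2 * Real.pi * x : ℝ) : ℂ) * I := by
    push_cast; ring
  rw [this, Complex.norm_exp_ofReal_mul_I]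

theorem norm_E (r y : ℝ) : ‖E r y‖ = 1 := norm_ex _

theorem norm_ph (r y : ℝ) : ‖ph r y‖ = 1 := norm_ex _

theorem cont_E (r : ℝ) : Continuous (E r) := by
  unfold E
  fun_prop

theorem cont_ph (r : ℝ) : Continuous (ph r) := by
  unfold ph
  fun_prop

/-- first amplitude -/
noncomputable def b0 (χ : ℝ → ℂ) (L y : ℝ) : ℂ :=
  cexp y * χ y - cexp y * (χ y + deriv χ y) / (2 * (Real.pi : ℂ) * (L : ℂ))

/-- second amplitude -/
noncomputable def b1 (χ : ℝ → ℂ) (σ y : ℝ) : ℂ :=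
  -(I * (σ : ℂ) * (cexp y * χ y)) * (((Real.sqrt y)⁻¹ : ℝ) : ℂ) / 2

/-- the function `e^y χ(y) e^{2 π i r √y} e^{2 π i s y}` -/
noncomputable def w0 (χ : ℝ → ℂ) (r s y : ℝ) : ℂ := cexp y * χ y * E r y * ph s y

/-- its derivative -/
noncomputable def w1 (χ : ℝ → ℂ) (r s y : ℝ) : ℂ :=
  (cexp y * (χ y + deriv χ y) + cexp y * χ y * ((Real.pi : ℂ) * I * (r : ℂ) *
    (((Real.sqrt y)⁻¹ : ℝ) : ℂ)) + 2 * (Real.pi : ℂ) * I * (s : ℂ) * (cexp y * χ y)) *
      E r y * ph s y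

theorem hasDeriv_w0 {χ : ℝ → ℂ} (hχ : ContDiff ℝ (⊤ : ℕ∞) χ)
    (hs : ∀ y, χ y ≠ 0 → 1 / 8 ≤ y ∧ y ≤ 8) (r s y : ℝ) :
    HasDerivAt (w0 χ r s) (w1 χ r s y) y := by
  have hc : HasDerivAt χ (deriv χ y) y := (hχ.differentiable (by simp)).differentiableAt.hasDerivAt
  by_cases hy : 0 < y
  · have h1 : HasDerivAt (fun x : ℝ => cexp x) (cexp y) y := (Complex.hasDerivAt_exp y).comp_ofReal
    have h2 : HasDerivAt (E r) (E r y * (2 * (Real.pi : ℂ) * I *
        ((r * (1 / (2 * Real.sqrt y)) : ℝ) : ℂ))) y := by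
      have := (((Real.hasDerivAt_sqrt hy.ne').const_mul r).ofReal_comp).const_mul
        (2 * (Real.pi : ℂ) * I)
      exact this.cexp
    have h3 : HasDerivAt (ph s) (ph s y * (2 * (Real.pi : ℂ) * I * ((s * 1 : ℝ) : ℂ))) y := by
      have := (((hasDerivAt_id y).const_mul s).ofReal_comp).const_mul (2 * (Real.pi : ℂ) * I)
      exact this.cexp
    have h4 := ((h1.mul hc).mul h2).mul h3
    convert! h4 using 1
    unfold w1
    simp only [Pi.mul_apply]
    have hq : Real.sqrt y ≠ 0 := (Real.sqrt_pos.2 hy).ne'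
    have hq2 : ((Real.sqrt y : ℝ) : ℂ) ≠ 0 := by exact_mod_cast hq
    push_cast
    field_simp
  · push Not at hy
    have h0 : ∀ᶠ x in nhds y, χ x = 0 := by
      filter_upwards [Iio_mem_nhds (show y < 1 / 8 by linarith)] with x hx
      by_contra h
      exact absurd (hs x h).1 (not_le.2 hx)
    have h1 : χ y = 0 := h0.self_of_nhds
    have h2 : deriv χ y = 0 := by
      have : χ =ᶠ[nhds y] fun _ => 0 := h0
      rw [this.deriv_eq, deriv_const]
    have h3 : w1 χ r s y = 0 := by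
      unfold w1
      rw [h1, h2]; ring
    rw [h3]
    have h4 : w0 χ r s =ᶠ[nhds y] fun _ => 0 := by
      filter_upwards [h0] with x hx
      unfold w0
      rw [hx]; ring
    exact (hasDerivAt_const y (0 : ℂ)).congr_of_eventuallyEq h4


section cls

variable {χ : ℝ → ℂ} {N : ℝ} (hN : 0 < N) (h : Cls (1 / 8) 8 N 2 χ)

include h in
theorem chi_bd (y : ℝ) : ‖χ y‖ ≤ N := by
  have := h.2.2 0 (by norm_num) y
  rwa [iteratedDeriv_zero] at this

include h in
theorem dchi_bd (y : ℝ) : ‖deriv χ y‖ ≤ N := by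
  have := h.2.2 1 (by norm_num) y
  rwa [iteratedDeriv_one] at this

include h in
theorem chi_out {y : ℝ} (hy : y ∉ Icc (1 / 8 : ℝ) 8) : χ y = 0 := by
  by_contra h1
  exact hy (h.2.1 y h1)

include h in
theorem dchi_out {y : ℝ} (hy : y ∉ Icc (1 / 8 : ℝ) 8) : deriv χ y = 0 := by
  have h0 : χ =ᶠ[nhds y] fun _ => 0 := by
    filter_upwards [isClosed_Icc.isOpen_compl.mem_nhds hy] with x hx
    exact chi_out h hx
  rw [h0.deriv_eq, deriv_const]

include h in
theorem chi_meas : Measurable χ := h.1.continuous.measurable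

theorem dchi_meas : Measurable (deriv χ) := measurable_deriv χ

theorem exp_bd {y : ℝ} (hy : y ∈ Icc (1 / 8 : ℝ) 8) : ‖cexp y‖ ≤ Real.exp 8 := by
  rw [Complex.norm_exp_ofReal]
  exact Real.exp_le_exp.2 hy.2

theorem isq_bd {y : ℝ} (hy : y ∈ Icc (1 / 8 : ℝ) 8) : ‖(((Real.sqrt y)⁻¹ : ℝ) : ℂ)‖ ≤ 4 := by
  rw [Complex.norm_real, Real.norm_eq_abs, abs_of_nonneg (inv_nonneg.2 (Real.sqrt_nonneg _))]
  refine inv_le_of_inv_le₀ (by norm_num) ?_
  apply Real.le_sqrt_of_sq_le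
  have := hy.1
  norm_num
  linarith

include hN h in
theorem b0_bd {L : ℝ} (hL : 1 ≤ L) (y : ℝ) : ‖b0 χ L y‖ ≤ 2 * Real.exp 8 * N := by
  by_cases hy : y ∈ Icc (1 / 8 : ℝ) 8
  · have h1 := exp_bd hy
    have h2 := chi_bd h y
    have h3 := dchi_bd h y
    have e1 : b0 χ L y = cexp y * (χ y - (χ y + deriv χ y) / (2 * (Real.pi : ℂ) * (L : ℂ))) := by
      unfold b0; ring
    have h4 : ‖(2 * (Real.pi : ℂ) * (L : ℂ))‖ = 2 * Real.pi * L := by
      have : (2 * (Real.pi : ℂ) * (L : ℂ)) = ((2 * Real.pi * L : ℝ) : ℂ) := by push_cast; ring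
      rw [this, Complex.norm_real, Real.norm_eq_abs, abs_of_pos]
      have := Real.pi_pos
      positivity
    have h5 : 2 ≤ 2 * Real.pi * L := by
      have := Real.pi_gt_three
      nlinarith
    have h6 : ‖(χ y + deriv χ y) / (2 * (Real.pi : ℂ) * (L : ℂ))‖ ≤ N := by
      rw [norm_div, h4, div_le_iff₀ (by linarith)]
      have := norm_add_le (χ y) (deriv χ y)
      nlinarith
    rw [e1, norm_mul]
    calc ‖cexp y‖ * ‖χ y - (χ y + deriv χ y) / (2 * (Real.pi : ℂ) * (L : ℂ))‖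
        ≤ Real.exp 8 * (N + N) := by
          refine mul_le_mul h1 ?_ (norm_nonneg _) (Real.exp_pos _).le
          exact (norm_sub_le _ _).trans (add_le_add h2 h6)
      _ = 2 * Real.exp 8 * N := by ring
  · unfold b0
    rw [chi_out h hy, dchi_out h hy]
    simp only [mul_zero, add_zero, zero_div, sub_zero, norm_zero]
    positivity

include hN h in
theorem b1_bd {σ : ℝ} (hσ : σ = 1 ∨ σ = -1) (y : ℝ) : ‖b1 χ σ y‖ ≤ 2 * Real.exp 8 * N := by
  by_cases hy : y ∈ Icc (1 / 8 : ℝ) 8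
  · have h1 := exp_bd hy
    have h2 := chi_bd h y
    have h3 := isq_bd hy
    have h4 : ‖(σ : ℂ)‖ = 1 := by
      rw [Complex.norm_real]
      rcases hσ with rfl | rfl <;> norm_num
    unfold b1
    rw [norm_div, norm_mul, norm_neg, norm_mul, norm_mul, norm_mul, Complex.norm_I, h4,
      Complex.norm_ofNat]
    have h5 : ‖cexp y‖ * ‖χ y‖ ≤ Real.exp 8 * N :=
      mul_le_mul h1 h2 (norm_nonneg _) (Real.exp_pos _).le
    have h6 : ‖cexp y‖ * ‖χ y‖ * ‖(((Real.sqrt y)⁻¹ : ℝ) : ℂ)‖ ≤ Real.exp 8 * N * 4 :=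
      mul_le_mul h5 h3 (norm_nonneg _) (by positivity)
    rw [one_mul, one_mul, div_le_iff₀ (by norm_num)]
    linarith
  · unfold b1
    rw [chi_out h hy]
    simp only [mul_zero, neg_zero, zero_mul, zero_div, norm_zero]
    positivity

include h in
theorem b0_out {L y : ℝ} (hy : b0 χ L y ≠ 0) : y ∈ Icc (1 / 8 : ℝ) 8 := by
  by_contra h1
  apply hy
  unfold b0
  rw [chi_out h h1, dchi_out h h1]; ring

include h in
theorem b1_out {σ y : ℝ} (hy : b1 χ σ y ≠ 0) : y ∈ Icc (1 / 8 : ℝ) 8 := by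
  by_contra h1
  apply hy
  unfold b1
  rw [chi_out h h1]; ring

include h in
theorem b0_meas (L : ℝ) : Measurable (b0 χ L) := by
  have h1 := chi_meas h
  have h2 := dchi_meas (χ := χ)
  have h3 : Measurable (fun y : ℝ => cexp y) := by fun_prop
  unfold b0
  exact (h3.mul h1).sub ((h3.mul (h1.add h2)).div_const _)

include h in
theorem b1_meas (σ : ℝ) : Measurable (b1 χ σ) := by
  have h1 := chi_meas h
  have h3 : Measurable (fun y : ℝ => cexp y) := by fun_prop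
  have h4 : Measurable (fun y : ℝ => (((Real.sqrt y)⁻¹ : ℝ) : ℂ)) := by fun_prop
  unfold b1
  exact (((measurable_const.mul (h3.mul h1)).neg).mul h4).div_const _

include hN h in
theorem w0_int (r s : ℝ) : Integrable (w0 χ r s) := by
  have h1 := chi_meas h
  have h3 : Measurable (fun y : ℝ => cexp y) := by fun_prop
  refine (int_bdd _ (((h3.mul h1).mul (cont_E r).measurable).mul (cont_ph s).measurable)
    (1 / 8) 8 (Real.exp 8 * N) (fun y => ?_) fun y hy => ?_).1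
  · show ‖cexp y * χ y * E r y * ph s y‖ ≤ _
    rw [norm_mul, norm_mul, norm_mul, norm_E, norm_ph, mul_one, mul_one]
    by_cases hy : y ∈ Icc (1 / 8 : ℝ) 8
    · exact mul_le_mul (exp_bd hy) (chi_bd h y) (norm_nonneg _) (Real.exp_pos _).le
    · rw [chi_out h hy, norm_zero, mul_zero]; positivity
  · by_contra h4
    apply hy
    show cexp y * χ y * E r y * ph s y = 0
    rw [chi_out h h4]; ring

/-- the integrand after the integration by parts -/
noncomputable def Ph (χ : ℝ → ℂ) (σ t L y : ℝ) : ℂ :=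
  (b0 χ L y + t * b1 χ σ y) * E (σ * t * L) y

include hN h in
theorem Ph_int {σ : ℝ} (hσ : σ = 1 ∨ σ = -1) {L : ℝ} (hL : 1 ≤ L) (t : ℝ) :
    Measurable (Ph χ σ t L) ∧ Integrable (Ph χ σ t L) := by
  have hm : Measurable (Ph χ σ t L) :=
    ((b0_meas h L).add (measurable_const.mul (b1_meas h σ))).mul (cont_E _).measurable
  refine ⟨hm, (int_bdd _ hm (1 / 8) 8 (2 * Real.exp 8 * N + |t| * (2 * Real.exp 8 * N))
    (fun y => ?_) fun y hy => ?_).1⟩
  · unfold Ph
    rw [norm_mul, norm_E, mul_one]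
    refine (norm_add_le _ _).trans (add_le_add (b0_bd hN h hL y) ?_)
    rw [norm_mul, Complex.norm_real, Real.norm_eq_abs]
    exact mul_le_mul_of_nonneg_left (b1_bd hN h hσ y) (abs_nonneg _)
  · by_contra h4
    apply hy
    unfold Ph b0 b1
    rw [chi_out h h4, dchi_out h h4]; ring

include hN h in
theorem stepA {σ : ℝ} (hσ : σ = 1 ∨ σ = -1) {L : ℝ} (hL : 1 ≤ L) (t s : ℝ) :
    MK (OS χ (σ * t * L)) s * (1 + I * ((s / L : ℝ) : ℂ)) = ∫ y, Ph χ σ t L y * ph s y := by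
  have hLc : (L : ℂ) ≠ 0 := by
    have : L ≠ 0 := by linarith
    exact_mod_cast this
  have hpi : (Real.pi : ℂ) ≠ 0 := by exact_mod_cast Real.pi_ne_zero
  set r := σ * t * L with hr
  have hM : MK (OS χ r) s = ∫ y, w0 χ r s y := by
    unfold MK OS w0 E ph
    refine integral_congr_ae (Filter.Eventually.of_forall fun y => ?_)
    ring
  have hI0 := w0_int hN h r s
  have hId : ∀ y, Ph χ σ t L y * ph s y =
      (1 + I * ((s / L : ℝ) : ℂ)) * w0 χ r s y - (1 / (2 * Real.pi * L)) * w1 χ r s y := by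
    intro y
    unfold Ph w0 w1 b0 b1
    rw [← hr]
    have hr2 : (r : ℂ) = σ * t * L := by rw [hr]; push_cast; ring
    rw [hr2]
    push_cast
    field_simp
    ring_nf
  have hPi : Integrable (fun y => Ph χ σ t L y * ph s y) := by
    have h1 := (Ph_int hN h hσ hL t)
    refine h1.2.norm.mono' ((h1.1.mul (cont_ph s).measurable).aestronglyMeasurable)
      (Filter.Eventually.of_forall fun y => ?_)
    rw [norm_mul, norm_ph, mul_one]
  have hI1 : Integrable (w1 χ r s) := by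
    have e : w1 χ r s = fun y => (2 * Real.pi * L) * ((1 + I * ((s / L : ℝ) : ℂ)) * w0 χ r s y -
        Ph χ σ t L y * ph s y) := by
      funext y
      rw [hId y]
      field_simp
      ring
    rw [e]
    exact ((hI0.const_mul _).sub hPi).const_mul _
  have hz : ∫ y, w1 χ r s y = 0 :=
    integral_eq_zero_of_hasDerivAt_of_integrable (hasDeriv_w0 h.1 h.2.1 r s) hI1 hI0
  rw [hM]
  simp_rw [hId]
  rw [integral_sub (hI0.const_mul _) (hI1.const_mul _), integral_const_mul, integral_const_mul, hz]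
  ring

end cls

theorem FT_neg (f : ℝ → ℂ) (s : ℝ) : ∫ y, f y * ph s y = 𝓕 f (-s) := by
  rw [Real.fourier_real_eq_integral_exp_smul]
  refine integral_congr_ae (Filter.Eventually.of_forall fun y => ?_)
  simp only [smul_eq_mul]
  unfold ph
  rw [mul_comm]
  congr 2
  push_cast
  ring

theorem stepB {f g : ℝ → ℂ} (hf : Integrable f) (hg : Integrable g) :
    ∫ s, 𝓕 f (-s) * g s = ∫ y, f y * 𝓕 (fun s => g (-s)) y := by
  have h1 : ∫ s, 𝓕 f (-s) * g s = ∫ s, 𝓕 f s * g (-s) := by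
    rw [← integral_neg_eq_self (fun s => 𝓕 f s * g (-s))]
    simp
  rw [h1]
  have h2 := VectorFourier.integral_fourierIntegral_smul_eq_flip (L := innerₗ ℝ)
    Real.continuous_fourierChar continuous_inner hf hg.comp_neg
  simpa using! h2

/-- the function after the substitution -/
noncomputable def B (b G : ℝ → ℂ) : ℝ → ℂ :=
  (Ioi (0 : ℝ)).indicator fun v => 2 * (v : ℂ) * b (v ^ 2) * G (v ^ 2)

theorem B_int {b G : ℝ → ℂ} (hb : Measurable b) {K : ℝ} (hK0 : 0 ≤ K) (hK : ∀ y, ‖b y‖ ≤ K)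
    (hs : ∀ y, b y ≠ 0 → y ∈ Icc (1 / 8 : ℝ) 8) (hG : Measurable G) {K' : ℝ}
    (hK' : ∀ y, ‖G y‖ ≤ K') : Integrable (B b G) ∧ MemLp (B b G) 2 := by
  have hsq : Measurable (fun v : ℝ => v ^ 2) := by fun_prop
  have hm : Measurable (B b G) := by
    refine Measurable.indicator ?_ measurableSet_Ioi
    have h1 : Measurable (fun v : ℝ => 2 * (v : ℂ)) := by fun_prop
    exact (h1.mul (hb.comp hsq)).mul (hG.comp hsq)
  have hK'0 : 0 ≤ K' := (norm_nonneg _).trans (hK' 0)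
  have hsup : ∀ y, B b G y ≠ 0 → 0 < y ∧ y ≤ 3 := by
    intro y hy
    by_cases h0 : y ∈ Ioi (0 : ℝ)
    · refine ⟨h0, ?_⟩
      unfold B at hy
      rw [indicator_of_mem h0] at hy
      have hb0 : b (y ^ 2) ≠ 0 := by
        intro h1
        apply hy
        rw [h1]; ring
      have := (hs _ hb0).2
      nlinarith [mem_Ioi.1 h0]
    · unfold B at hy
      rw [indicator_of_notMem h0] at hy
      exact absurd rfl hy
  refine int_bdd _ hm 0 3 (6 * K * K') (fun y => ?_) fun y hy => ⟨(hsup y hy).1.le, (hsup y hy).2⟩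
  by_cases h1 : B b G y = 0
  · rw [h1, norm_zero]; positivity
  · obtain ⟨h2, h3⟩ := hsup y h1
    unfold B
    rw [indicator_of_mem (mem_Ioi.2 h2), norm_mul, norm_mul, norm_mul, Complex.norm_real,
      Complex.norm_ofNat, Real.norm_eq_abs, abs_of_pos h2]
    have h4 : 2 * y * ‖b (y ^ 2)‖ ≤ 6 * K :=
      mul_le_mul (by linarith) (hK _) (norm_nonneg _) (by norm_num)
    exact mul_le_mul h4 (hK' _) (norm_nonneg _) (by positivity)

theorem B_L2 {b G : ℝ → ℂ} {K : ℝ} (hK : ∀ y, ‖b y‖ ≤ K)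
    (hs : ∀ y, b y ≠ 0 → y ∈ Icc (1 / 8 : ℝ) 8) :
    ∫⁻ v, ‖B b G v‖ₑ ^ 2 ≤ ENNReal.ofReal (6 * K ^ 2) * ∫⁻ y, ‖G y‖ₑ ^ 2 := by
  have hpt : ∀ v, ‖B b G v‖ₑ ^ 2 ≤ (Ioi (0 : ℝ)).indicator (fun v => ENNReal.ofReal (6 * K ^ 2) *
      (ENNReal.ofReal (|2 * v|) * ‖G (v ^ 2)‖ₑ ^ 2)) v := by
    intro v
    by_cases h0 : v ∈ Ioi (0 : ℝ)
    · unfold B
      rw [indicator_of_mem h0, indicator_of_mem h0]
      have hv : 0 < v := h0
      by_cases hb0 : b (v ^ 2) = 0
      · rw [hb0]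
        simp
      · have h1 := (hs _ hb0).2
        have h3 : v ≤ 3 := by nlinarith
        rw [← ofReal_norm, ← ofReal_norm, ← ENNReal.ofReal_pow (norm_nonneg _),
          ← ENNReal.ofReal_pow (norm_nonneg _), ← ENNReal.ofReal_mul (abs_nonneg _),
          ← ENNReal.ofReal_mul (by positivity)]
        apply ENNReal.ofReal_le_ofReal
        rw [norm_mul, norm_mul, norm_mul, Complex.norm_real,
          Complex.norm_ofNat, Real.norm_eq_abs, abs_of_pos hv, abs_of_pos (by positivity)]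
        have h4 : ‖b (v ^ 2)‖ ^ 2 ≤ K ^ 2 := pow_le_pow_left₀ (norm_nonneg _) (hK _) 2
        have h5 : (2 * v) ^ 2 ≤ 6 * (2 * v) := by nlinarith
        calc (2 * v * ‖b (v ^ 2)‖ * ‖G (v ^ 2)‖) ^ 2
            = (2 * v) ^ 2 * ‖b (v ^ 2)‖ ^ 2 * ‖G (v ^ 2)‖ ^ 2 := by ring
          _ ≤ (6 * (2 * v)) * K ^ 2 * ‖G (v ^ 2)‖ ^ 2 := by
              refine mul_le_mul_of_nonneg_right ?_ (by positivity)
              exact mul_le_mul h5 h4 (by positivity) (by positivity)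
          _ = 6 * K ^ 2 * (2 * v * ‖G (v ^ 2)‖ ^ 2) := by ring
    · unfold B
      rw [indicator_of_notMem h0, indicator_of_notMem h0]
      simp
  refine (lintegral_mono hpt).trans ?_
  rw [lintegral_indicator measurableSet_Ioi, lintegral_const_mul' _ _ ENNReal.ofReal_ne_top]
  refine mul_le_mul_right ?_ _
  have h1 := lintegral_image_eq_lintegral_abs_deriv_mul (s := Ioi (0 : ℝ))
    (f := fun v : ℝ => v ^ 2) (f' := fun v => 2 * v) measurableSet_Ioi
    (fun x _ => by simpa using (hasDerivAt_pow 2 x).hasDerivWithinAt)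
    (fun x hx y hy hxy => by
      have hx0 : (0 : ℝ) < x := hx
      have hy0 : (0 : ℝ) < y := hy
      exact (pow_left_inj₀ hx0.le hy0.le two_ne_zero).1 hxy) (fun y => ‖G y‖ₑ ^ 2)
  rw [← h1]
  exact setLIntegral_le_lintegral _ _

theorem scale {F : ℝ → ℝ≥0∞} (hF : Measurable F) {c : ℝ} (hc : c ≠ 0) :
    ∫⁻ t, F (c * t) = ENNReal.ofReal |c⁻¹| * ∫⁻ x, F x := by
  have h1 : ∫⁻ t, F (c * t) = ∫⁻ x, F x ∂(Measure.map (c * ·) volume) := by
    rw [lintegral_map hF (measurable_const_mul c)]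
  rw [h1, Real.map_volume_mul_left hc, lintegral_smul_measure, smul_eq_mul]

theorem stepD {f : ℝ → ℂ} (h1 : Integrable f) (h2 : MemLp f 2) {σ : ℝ} (hσ : σ = 1 ∨ σ = -1)
    {L : ℝ} (hL : 1 ≤ L) :
    ∫⁻ t in Icc (1 : ℝ) 2, ‖𝓕 f (-(σ * t * L))‖ₑ ^ 2 ≤
      ENNReal.ofReal (1 / L) * ∫⁻ v, ‖f v‖ₑ ^ 2 := by
  have hcont : Continuous (𝓕 f) :=
    VectorFourier.fourierIntegral_continuous Real.continuous_fourierChar
      (innerSL ℝ).continuous₂ h1
  have hm : Measurable (fun x => ‖𝓕 f x‖ₑ ^ 2) := hcont.measurable.enorm.pow_const 2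
  have hc : -(σ * L) ≠ 0 := by
    rcases hσ with rfl | rfl
    · have : L ≠ 0 := by linarith
      simpa using this
    · have : L ≠ 0 := by linarith
      simpa using this
  have habs : |(-(σ * L))⁻¹| = 1 / L := by
    rw [abs_inv, abs_neg, abs_mul, abs_of_pos (by linarith : 0 < L)]
    rcases hσ with rfl | rfl <;> simp
  refine (setLIntegral_le_lintegral _ _).trans ?_
  have e := scale hm hc
  rw [habs, Helper76.NormalHP.plancherel_lintegral f h1 h2] at e
  rw [← e]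
  refine le_of_eq (lintegral_congr fun t => ?_)
  show _ = ‖𝓕 f (-(σ * L) * t)‖ₑ ^ 2
  congr 3
  ring

theorem two_sq (a b : ℂ) {t : ℝ} (ht : t ∈ Icc (1 : ℝ) 2) :
    ‖a + t * b‖ₑ ^ 2 ≤ 2 * ‖a‖ₑ ^ 2 + 8 * ‖b‖ₑ ^ 2 := by
  have h2 : (2 : ℝ≥0∞) = ENNReal.ofReal 2 := by simp
  have h8 : (8 : ℝ≥0∞) = ENNReal.ofReal 8 := by simp
  rw [h2, h8, ← ofReal_norm, ← ofReal_norm, ← ofReal_norm, ← ENNReal.ofReal_pow (norm_nonneg _),
    ← ENNReal.ofReal_pow (norm_nonneg _), ← ENNReal.ofReal_pow (norm_nonneg _),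
    ← ENNReal.ofReal_mul (by norm_num), ← ENNReal.ofReal_mul (by norm_num),
    ← ENNReal.ofReal_add (by positivity) (by positivity)]
  apply ENNReal.ofReal_le_ofReal
  have h3 : ‖a + t * b‖ ≤ ‖a‖ + 2 * ‖b‖ := by
    refine (norm_add_le _ _).trans (add_le_add le_rfl ?_)
    rw [norm_mul, Complex.norm_real, Real.norm_eq_abs, abs_of_pos (by linarith [ht.1])]
    exact mul_le_mul_of_nonneg_right ht.2 (norm_nonneg _)
  have h4 := pow_le_pow_left₀ (norm_nonneg _) h3 2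
  nlinarith [sq_nonneg (‖a‖ - 2 * ‖b‖)]

theorem stepC {χ : ℝ → ℂ} {N : ℝ} (hN : 0 < N) (h : Cls (1 / 8) 8 N 2 χ) {σ : ℝ}
    (hσ : σ = 1 ∨ σ = -1) {L : ℝ} (hL : 1 ≤ L) (t : ℝ) {G : ℝ → ℂ} (hG : Measurable G) {K' : ℝ}
    (hK' : ∀ y, ‖G y‖ ≤ K') :
    ∫ y, Ph χ σ t L y * G y = 𝓕 (B (b0 χ L) G) (-(σ * t * L)) +
      t * 𝓕 (B (b1 χ σ) G) (-(σ * t * L)) := by
  set r := σ * t * L with hr
  have hK0 : 0 ≤ 2 * Real.exp 8 * N := by positivity
  have i0 := (B_int (b0_meas h L) hK0 (b0_bd hN h hL) (fun y hy => b0_out h hy) hG hK').1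
  have i1 := (B_int (b1_meas h σ) hK0 (b1_bd hN h hσ) (fun y hy => b1_out h hy) hG hK').1
  have hph : ∀ f : ℝ → ℂ, Integrable f → Integrable (fun v => f v * ph r v) := by
    intro f hf
    exact hf.mul_bdd (c := 1) (cont_ph r).measurable.aestronglyMeasurable
      (Filter.Eventually.of_forall fun v => (norm_ph r v).le)
  rw [← FT_neg, ← FT_neg, ← integral_const_mul, ← integral_add (hph _ i0) ((hph _ i1).const_mul _)]
  have e1 : ∫ y, Ph χ σ t L y * G y = ∫ y in Ioi (0 : ℝ), Ph χ σ t L y * G y := by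
    rw [setIntegral_eq_integral_of_forall_compl_eq_zero]
    intro y hy
    have hy2 : y ∉ Icc (1 / 8 : ℝ) 8 := fun h1 => hy (lt_of_lt_of_le (by norm_num) h1.1)
    unfold Ph b0 b1
    rw [chi_out h hy2, dchi_out h hy2]; ring
  rw [e1, ← integral_comp_rpow_Ioi_of_pos (g := fun y => Ph χ σ t L y * G y) two_pos]
  rw [← setIntegral_eq_integral_of_forall_compl_eq_zero (s := Ioi (0 : ℝ)) (μ := volume)
    (f := fun v => B (b0 χ L) G v * ph r v + t * (B (b1 χ σ) G v * ph r v))]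
  · refine setIntegral_congr_fun measurableSet_Ioi fun v hv => ?_
    have hv0 : (0 : ℝ) < v := hv
    unfold B Ph
    simp only [indicator_of_mem hv, Real.rpow_two]
    have e2 : E (σ * t * L) (v ^ 2) = ph r v := by
      unfold E ph
      rw [Real.sqrt_sq hv0.le]
    have e3 : v ^ ((2 : ℝ) - 1) = v := by norm_num
    rw [e2, e3, Complex.real_smul]
    push_cast
    ring
  · intro v hv
    unfold B
    rw [indicator_of_notMem hv, indicator_of_notMem hv]
    ring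

/-- KB. The kernel from `L^2(ds)` to `L^2(dt)`. -/
theorem kb : S_KB := by
  refine ⟨240 * Real.exp 8 ^ 2, by positivity, ?_⟩
  intro L hL N hN χ h σ hσ g hg ⟨K, hK⟩ ⟨R, hR⟩
  have hgs : ∀ y, g y ≠ 0 → y ∈ Icc (-R) R := by
    intro y hy
    by_contra h1
    apply hy
    apply hR
    by_contra h2
    push Not at h2
    exact h1 (abs_le.1 h2)
  obtain ⟨gi, gL⟩ := int_bdd g hg (-R) R K hK hgs
  obtain ⟨ni, nL⟩ := int_bdd (fun s => g (-s)) (hg.comp measurable_neg) (-R) R K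
    (fun y => hK _) (fun y hy => by
      have := hgs _ hy
      exact ⟨by linarith [this.2], by linarith [this.1]⟩)
  set G : ℝ → ℂ := 𝓕 (fun s => g (-s)) with hGd
  have hGc : Continuous G :=
    VectorFourier.fourierIntegral_continuous Real.continuous_fourierChar
      (innerSL ℝ).continuous₂ ni
  have hGb : ∀ y, ‖G y‖ ≤ ∫ s, ‖g (-s)‖ := fun y =>
    VectorFourier.norm_fourierIntegral_le_integral_norm _ _ _ _ _
  have hGL : ∫⁻ y, ‖G y‖ₑ ^ 2 = ∫⁻ s, ‖g s‖ₑ ^ 2 := by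
    rw [hGd, Helper76.NormalHP.plancherel_lintegral _ ni nL]
    exact lintegral_neg_eq_self (μ := (volume : Measure ℝ)) (f := fun s => ‖g s‖ₑ ^ 2)
  have hK0 : 0 ≤ 2 * Real.exp 8 * N := by positivity
  have i0 := B_int (b0_meas h L) hK0 (b0_bd hN h hL) (fun y hy => b0_out h hy) hGc.measurable hGb
  have i1 := B_int (b1_meas h σ) hK0 (b1_bd hN h hσ) (fun y hy => b1_out h hy) hGc.measurable hGb
  have hpt : ∀ t : ℝ, ∫ s : ℝ, MK (OS χ (σ * t * L)) s * ((1 + I * ((s / L : ℝ) : ℂ)) * g s) =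
      𝓕 (B (b0 χ L) G) (-(σ * t * L)) + t * 𝓕 (B (b1 χ σ) G) (-(σ * t * L)) := by
    intro t
    rw [← stepC hN h hσ hL t hGc.measurable hGb, hGd, ← stepB (Ph_int hN h hσ hL t).2 gi]
    refine integral_congr_ae (Filter.Eventually.of_forall fun s => ?_)
    show MK (OS χ (σ * t * L)) s * ((1 + I * ((s / L : ℝ) : ℂ)) * g s) = 𝓕 (Ph χ σ t L) (-s) * g s
    rw [← mul_assoc, stepA hN h hσ hL t s, FT_neg]
  simp_rw [hpt, ENNReal.rpow_two]
  have hcont : ∀ f : ℝ → ℂ, Integrable f → Measurable (fun t => ‖𝓕 f (-(σ * t * L))‖ₑ ^ 2) := by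
    intro f hf
    have h1 : Continuous (𝓕 f) :=
      VectorFourier.fourierIntegral_continuous Real.continuous_fourierChar
        (innerSL ℝ).continuous₂ hf
    have h2 : Continuous (fun t : ℝ => -(σ * t * L)) := by fun_prop
    exact (h1.comp h2).measurable.enorm.pow_const 2
  calc ∫⁻ t in Icc (1 : ℝ) 2, ‖𝓕 (B (b0 χ L) G) (-(σ * t * L)) +
        t * 𝓕 (B (b1 χ σ) G) (-(σ * t * L))‖ₑ ^ 2
      ≤ ∫⁻ t in Icc (1 : ℝ) 2, (2 * ‖𝓕 (B (b0 χ L) G) (-(σ * t * L))‖ₑ ^ 2 +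
        8 * ‖𝓕 (B (b1 χ σ) G) (-(σ * t * L))‖ₑ ^ 2) :=
        setLIntegral_mono' measurableSet_Icc fun t ht => two_sq _ _ ht
    _ = 2 * (∫⁻ t in Icc (1 : ℝ) 2, ‖𝓕 (B (b0 χ L) G) (-(σ * t * L))‖ₑ ^ 2) +
        8 * ∫⁻ t in Icc (1 : ℝ) 2, ‖𝓕 (B (b1 χ σ) G) (-(σ * t * L))‖ₑ ^ 2 := by
        rw [lintegral_add_left ((hcont _ i0.1).const_mul _),
          lintegral_const_mul' _ _ (by norm_num), lintegral_const_mul' _ _ (by norm_num)]
    _ ≤ 2 * (ENNReal.ofReal (1 / L) * (ENNReal.ofReal (6 * (2 * Real.exp 8 * N) ^ 2) *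
          ∫⁻ s, ‖g s‖ₑ ^ 2)) +
        8 * (ENNReal.ofReal (1 / L) * (ENNReal.ofReal (6 * (2 * Real.exp 8 * N) ^ 2) *
          ∫⁻ s, ‖g s‖ₑ ^ 2)) := by
        rw [← hGL]
        refine add_le_add (mul_le_mul_right ?_ _) (mul_le_mul_right ?_ _)
        · exact (stepD i0.1 i0.2 hσ hL).trans (mul_le_mul_right
            (B_L2 (b0_bd hN h hL) (fun y hy => b0_out h hy)) _)
        · exact (stepD i1.1 i1.2 hσ hL).trans (mul_le_mul_right
            (B_L2 (b1_bd hN h hσ) (fun y hy => b1_out h hy)) _)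
    _ = ENNReal.ofReal (240 * Real.exp 8 ^ 2 * N ^ 2 / L) * ∫⁻ s, ‖g s‖ₑ ^ 2 := by
        have e1 : ENNReal.ofReal (240 * Real.exp 8 ^ 2 * N ^ 2 / L) =
            10 * (ENNReal.ofReal (1 / L) * ENNReal.ofReal (6 * (2 * Real.exp 8 * N) ^ 2)) := by
          have h10 : (10 : ℝ≥0∞) = ENNReal.ofReal 10 := by simp
          rw [h10, ← ENNReal.ofReal_mul (by positivity), ← ENNReal.ofReal_mul (by norm_num)]
          congr 1
          field_simp
          ring
        rw [e1]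
        ring

end Pool.Agent.W554.WV
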